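import Pool.Agent.H.MP_b58525_ag.Main

namespace Pool.Agent.Results.MP_b58525_ag.AllDim

/-- p is the annihilator of the class in R^n / R of an element x of the normalization R^n
(the elements of the fraction field integral over R): r lies in p iff r x lies in R. -/
def IsAnnOfNormQuot {R : Type} [CommRing R] (p : Ideal R) : Prop :=
  ∃ x : FractionRing R, IsIntegral R x ∧
    ∀ r : R, r ∈ p ↔ algebraMap R (FractionRing R) r * x ∈ Set.range (algebraMap R (FractionRing R))

theorem result (d : ℕ) : ∃ (R : Type) (_ : CommRing R), IsDomain R ∧ IsNoetherianRing R ∧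
    ringKrullDim R = d ∧ ∀ p : Ideal R, p.IsPrime → p.height = 1 → IsAnnOfNormQuot p := by
  obtain ⟨R, i1, i2, h1, h2, h3⟩ := Pool.Agent.H.MP_b58525_ag.main d
  refine ⟨R, i1, i2, h1, h2, fun p hp hh => ?_⟩
  obtain ⟨x, hx, h⟩ := h3 p hp hh
  refine ⟨x, hx, fun r => ?_⟩
  rw [h, ← Algebra.smul_def]
  rfl

end Pool.Agent.Results.MP_b58525_ag.AllDim
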